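import Mathlib

/-!
# Simple random tensors with independent coordinates
-/

namespace Pool.Agent.MP_2a72d7_pr

open MeasureTheory

/-- The simple tensor `x₁ ⊗ ⋯ ⊗ x_d` of vectors of `ℝⁿ`, as a vector of `ℝ^(n^d)`
(coordinates indexed by `Fin d → Fin n`) with the Euclidean norm. -/
noncomputable def simpleTensor {n d : ℕ} (x : Fin d → Fin n → ℝ) :
    EuclideanSpace ℝ (Fin d → Fin n) :=
  WithLp.toLp 2 (fun J => ∏ k, x k (J k))

/-- `SigmaMinGE X σ` says that `‖∑ aᵢ Xᵢ‖₂ ≥ σ ‖a‖₂` for all `a ∈ ℝᵐ`, i.e. that the smallest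
singular value of the matrix with columns `X₁, …, X_m` is at least `σ`. -/
def SigmaMinGE {m : ℕ} {ι : Type*} [Fintype ι] (X : Fin m → EuclideanSpace ℝ ι) (σ : ℝ) : Prop :=
  ∀ a : EuclideanSpace ℝ (Fin m), σ * ‖a‖ ≤ ‖∑ i, a i • X i‖

/-- A coordinate law: a probability measure on `ℝ` with mean zero, unit variance and
subgaussian norm `‖ξ‖_{ψ₂} = inf {t > 0 : E exp(ξ²/t²) ≤ 2}` at most `L`. -/
structure Admissible (L : ℝ) (ν : Measure ℝ) : Prop where
  prob : IsProbabilityMeasure ν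
  L_pos : 0 < L
  mean_zero : ∫ x, x ∂ν = 0
  unit_variance : ∫ x, x ^ 2 ∂ν = 1
  subgaussian : ∫⁻ x, ENNReal.ofReal (Real.exp (x ^ 2 / L ^ 2)) ∂ν ≤ 2

/-- The law of `m` independent `d`-tuples of independent vectors of `ℝⁿ` all of whose
coordinates are independent with law `ν`. -/
noncomputable def coordLaw (ν : Measure ℝ) (n d m : ℕ) :
    Measure (Fin m → Fin d → Fin n → ℝ) :=
  Measure.pi fun _ => Measure.pi fun _ => Measure.pi fun _ => ν

end Pool.Agent.MP_2a72d7_pr
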